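import Pool.Agent.CP69.Prob
import Pool.Agent.CP25.Bound

/-!
# CP69/Bound: the probability of the bad event
-/

set_option autoImplicit false

namespace Pool.Agent.CP69

open MeasureTheory ProbabilityTheory Finset Filter Topology Pool.Agent.CP25
open Pool.Agent.CM69 (tr mem_tr real_biInter key)

variable {Ω : Type*} [mΩ : MeasurableSpace Ω] {μ : Measure Ω} {E : ℕ → Set Ω}

theorem g1_le [IsProbabilityMeasure μ] (hE : ∀ m, MeasurableSet (E m)) (hi : iIndepSet E μ)
    (hp : ∀ m, 3 ≤ m → μ.real (E m) = 1 / Real.log m) {n k w v c j : ℕ} (hn : 3 ≤ n) (hv : 3 ≤ v)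
    (hk : v + w ≤ n ^ 3) :
    μ.real (G1 E n k w v c j) ≤ (1 - 1 / (3 * Real.log n)) ^ k := by
  refine key_le hE hi hp hn (n ^ 2) (Icc v (v + w)) (fun m hm => ?_)
    (fun G => grp k j (Q1g n w v c G)) (fun G => (grp_subset _ _ _).trans (filter_subset _ _)) k
  rw [mem_Icc] at hm
  omega

theorem g2_le [IsProbabilityMeasure μ] (hE : ∀ m, MeasurableSet (E m)) (hi : iIndepSet E μ)
    (hp : ∀ m, 3 ≤ m → μ.real (E m) = 1 / Real.log m) {n k w v j : ℕ} (hn : 3 ≤ n) (hv : 3 ≤ v)
    (hk : v + w ≤ n ^ 3) :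
    μ.real (G2 E n k w v j) ≤ (1 - 1 / (3 * Real.log n)) ^ k := by
  refine key_le hE hi hp hn (n ^ 2) (Icc v (v + w)) (fun m hm => ?_)
    (fun G => grp k j (Q2g n w v G)) (fun G => (grp_subset _ _ _).trans (filter_subset _ _)) k
  rw [mem_Icc] at hm
  omega

theorem badK_le [IsProbabilityMeasure μ] (hE : ∀ m, MeasurableSet (E m)) (hi : iIndepSet E μ)
    (hp : ∀ m, 3 ≤ m → μ.real (E m) = 1 / Real.log m) {n k K : ℕ} (hk : 5 ≤ k) (hK : 1 ≤ K)
    (hn : 100 * (k ^ 4 * K) ≤ n) (hS : ∑ m ∈ range (4 * n), μ.real (E m) ≤ n / 8) :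
    μ.real (BadK E n k K) ≤ Real.exp (-(n / 4)) +
      7 * (n : ℝ) ^ 4 * (1 - 1 / (3 * Real.log n)) ^ k := by
  obtain ⟨s1, s2, s3, s5, s6, s7⟩ := szs hk hK hn
  have hkk : k ^ 2 = k * k := by ring
  have hk1 : k * 5 ≤ k * k := Nat.mul_le_mul_left k hk
  have hn3 : 4 ≤ n := by omega
  obtain ⟨c0, c1⟩ := cc_pos (n := n) (by omega)
  obtain ⟨r, hr⟩ : ∃ r, r = (1 - 1 / (3 * Real.log n)) ^ k := ⟨_, rfl⟩
  have hr0 : 0 ≤ r := by
    rw [hr]
    exact pow_nonneg (by linarith) k
  have hKn : K ≤ n := by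
    have h1 : 1 * K ≤ k ^ 2 * K := Nat.mul_le_mul_right _ (by omega)
    omega
  have hKk : K / k ≤ n := (Nat.div_le_self K k).trans hKn
  have hn23 : 4 * n ^ 2 ≤ n ^ 3 := by
    have e : n ^ 3 = n * n ^ 2 := by ring
    rw [e]
    exact Nat.mul_le_mul_right _ hn3
  have hnn2 : 4 * n ≤ n ^ 2 := by
    have e : n ^ 2 = n * n := by ring
    rw [e]
    exact Nat.mul_le_mul_right _ hn3
  have b1 : μ.real (⋃ y ∈ (range (n ^ 2)).filter (fun y => 8 ≤ y), W1 E k y) ≤ n ^ 2 * r := by
    calc _ ≤ ∑ y ∈ (range (n ^ 2)).filter (fun y => 8 ≤ y), μ.real (W1 E k y) :=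
          measureReal_biUnion_finset_le _ _
      _ ≤ ∑ y ∈ (range (n ^ 2)).filter (fun y => 8 ≤ y), r := by
          refine sum_le_sum fun y hy => ?_
          rw [mem_filter, mem_range] at hy
          rw [hr]
          exact w1_le hE hi hp (by omega) (by omega) (by omega)
      _ ≤ ∑ y ∈ range (n ^ 2), r :=
          sum_le_sum_of_subset_of_nonneg (filter_subset _ _) fun _ _ _ => hr0
      _ = n ^ 2 * r := by
          rw [sum_const, card_range, nsmul_eq_mul]
          push_cast
          ring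
  have b2 : μ.real (⋃ y ∈ (range (n ^ 2)).filter (fun y => 8 ≤ y), W2 E k y) ≤ n ^ 2 * r := by
    calc _ ≤ ∑ y ∈ (range (n ^ 2)).filter (fun y => 8 ≤ y), μ.real (W2 E k y) :=
          measureReal_biUnion_finset_le _ _
      _ ≤ ∑ y ∈ (range (n ^ 2)).filter (fun y => 8 ≤ y), r := by
          refine sum_le_sum fun y hy => ?_
          rw [mem_filter, mem_range] at hy
          rw [hr]
          exact w2_le hi hp (by omega) (by omega)
      _ ≤ ∑ y ∈ range (n ^ 2), r :=
          sum_le_sum_of_subset_of_nonneg (filter_subset _ _) fun _ _ _ => hr0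
      _ = n ^ 2 * r := by
          rw [sum_const, card_range, nsmul_eq_mul]
          push_cast
          ring
  have b3 : μ.real (UU E n) ≤ Real.exp (-(n / 4)) := uu_le hE hi (by omega) hS
  have b4 : μ.real (⋃ t ∈ range K, BG E n k t) ≤ n * r := by
    calc _ ≤ ∑ t ∈ range K, μ.real (BG E n k t) := measureReal_biUnion_finset_le _ _
      _ ≤ ∑ t ∈ range K, r := by
          refine sum_le_sum fun t _ => ?_
          rw [hr]
          exact bg_le hE hi hp hn3
      _ = (K : ℝ) * r := by rw [sum_const, card_range, nsmul_eq_mul]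
      _ ≤ n * r := by
          refine mul_le_mul_of_nonneg_right ?_ hr0
          exact_mod_cast hKn
  have b5 : μ.real (⋃ v ∈ (range (n ^ 2 + 1)).filter (fun v => 2 * n < v),
      ⋃ c ∈ range (k ^ 4 * K + 2), ⋃ j ∈ range (K / k), G1 E n k (k ^ 4 * K) v c j) ≤
      2 * n ^ 2 * (n * (n * r)) := by
    calc _ ≤ ∑ v ∈ (range (n ^ 2 + 1)).filter (fun v => 2 * n < v),
          μ.real (⋃ c ∈ range (k ^ 4 * K + 2), ⋃ j ∈ range (K / k), G1 E n k (k ^ 4 * K) v c j) :=
          measureReal_biUnion_finset_le _ _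
      _ ≤ ∑ v ∈ (range (n ^ 2 + 1)).filter (fun v => 2 * n < v), n * (n * r) := by
          refine sum_le_sum fun v hv => ?_
          rw [mem_filter, mem_range] at hv
          calc _ ≤ ∑ c ∈ range (k ^ 4 * K + 2),
                μ.real (⋃ j ∈ range (K / k), G1 E n k (k ^ 4 * K) v c j) :=
                measureReal_biUnion_finset_le _ _
            _ ≤ ∑ c ∈ range (k ^ 4 * K + 2), n * r := by
                refine sum_le_sum fun c _ => ?_
                calc _ ≤ ∑ j ∈ range (K / k), μ.real (G1 E n k (k ^ 4 * K) v c j) :=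
                      measureReal_biUnion_finset_le _ _
                  _ ≤ ∑ j ∈ range (K / k), r := by
                      refine sum_le_sum fun j _ => ?_
                      rw [hr]
                      exact g1_le hE hi hp (by omega) (by omega) (by omega)
                  _ = ((K / k : ℕ) : ℝ) * r := by rw [sum_const, card_range, nsmul_eq_mul]
                  _ ≤ n * r := by
                      refine mul_le_mul_of_nonneg_right ?_ hr0
                      exact_mod_cast hKk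
            _ = ((k ^ 4 * K + 2 : ℕ) : ℝ) * (n * r) := by
                rw [sum_const, card_range, nsmul_eq_mul]
            _ ≤ n * (n * r) := by
                refine mul_le_mul_of_nonneg_right ?_ (by positivity)
                exact_mod_cast (show k ^ 4 * K + 2 ≤ n by omega)
      _ ≤ ∑ v ∈ range (n ^ 2 + 1), (n : ℝ) * (n * r) :=
          sum_le_sum_of_subset_of_nonneg (filter_subset _ _) fun _ _ _ => by positivity
      _ = ((n ^ 2 + 1 : ℕ) : ℝ) * (n * (n * r)) := by rw [sum_const, card_range, nsmul_eq_mul]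
      _ ≤ 2 * n ^ 2 * (n * (n * r)) := by
          refine mul_le_mul_of_nonneg_right ?_ (by positivity)
          exact_mod_cast (show n ^ 2 + 1 ≤ 2 * n ^ 2 by omega)
  have b6 : μ.real (⋃ v ∈ (range (n ^ 2 + 1)).filter (fun v => 2 * n < v),
      ⋃ j ∈ range (K / k), G2 E n k (k ^ 4 * K) v j) ≤ 2 * n ^ 2 * (n * r) := by
    calc _ ≤ ∑ v ∈ (range (n ^ 2 + 1)).filter (fun v => 2 * n < v),
          μ.real (⋃ j ∈ range (K / k), G2 E n k (k ^ 4 * K) v j) :=
          measureReal_biUnion_finset_le _ _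
      _ ≤ ∑ v ∈ (range (n ^ 2 + 1)).filter (fun v => 2 * n < v), n * r := by
          refine sum_le_sum fun v hv => ?_
          rw [mem_filter, mem_range] at hv
          calc _ ≤ ∑ j ∈ range (K / k), μ.real (G2 E n k (k ^ 4 * K) v j) :=
                measureReal_biUnion_finset_le _ _
            _ ≤ ∑ j ∈ range (K / k), r := by
                refine sum_le_sum fun j _ => ?_
                rw [hr]
                exact g2_le hE hi hp (by omega) (by omega) (by omega)
            _ = ((K / k : ℕ) : ℝ) * r := by rw [sum_const, card_range, nsmul_eq_mul]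
            _ ≤ n * r := by
                refine mul_le_mul_of_nonneg_right ?_ hr0
                exact_mod_cast hKk
      _ ≤ ∑ v ∈ range (n ^ 2 + 1), (n : ℝ) * r :=
          sum_le_sum_of_subset_of_nonneg (filter_subset _ _) fun _ _ _ => by positivity
      _ = ((n ^ 2 + 1 : ℕ) : ℝ) * (n * r) := by rw [sum_const, card_range, nsmul_eq_mul]
      _ ≤ 2 * n ^ 2 * (n * r) := by
          refine mul_le_mul_of_nonneg_right ?_ (by positivity)
          exact_mod_cast (show n ^ 2 + 1 ≤ 2 * n ^ 2 by omega)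
  have htot : μ.real (BadK E n k K) ≤ n ^ 2 * r + (n ^ 2 * r + (Real.exp (-(n / 4)) + (n * r +
      (2 * n ^ 2 * (n * (n * r)) + 2 * n ^ 2 * (n * r))))) := by
    unfold BadK
    refine (measureReal_union_le _ _).trans (add_le_add b1 ?_)
    refine (measureReal_union_le _ _).trans (add_le_add b2 ?_)
    refine (measureReal_union_le _ _).trans (add_le_add b3 ?_)
    refine (measureReal_union_le _ _).trans (add_le_add b4 ?_)
    exact (measureReal_union_le _ _).trans (add_le_add b5 b6)
  rw [← hr]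
  have g0 : (4 : ℝ) ≤ n := by exact_mod_cast hn3
  have g1 : (4 : ℝ) * n ^ 2 ≤ n ^ 3 := by exact_mod_cast hn23
  have g2 : (4 : ℝ) * n ≤ n ^ 2 := by exact_mod_cast hnn2
  have g3 : (4 : ℝ) * n ^ 2 * r ≤ n ^ 3 * r := mul_le_mul_of_nonneg_right g1 hr0
  have g4 : (4 : ℝ) * n * r ≤ n ^ 2 * r := mul_le_mul_of_nonneg_right g2 hr0
  have g8 : (4 : ℝ) * (n ^ 3 * r) ≤ n * (n ^ 3 * r) := mul_le_mul_of_nonneg_right g0 (by positivity)
  have g5 : 2 * (n : ℝ) ^ 2 * (n * (n * r)) = 2 * (n * (n ^ 3 * r)) := by ring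
  have g9 : 2 * (n : ℝ) ^ 2 * (n * r) = 2 * (n ^ 3 * r) := by ring
  have g6 : 0 ≤ (n : ℝ) ^ 3 * r := by positivity
  have g7 : 7 * (n : ℝ) ^ 4 * r = 7 * (n * (n ^ 3 * r)) := by ring
  rw [g7]
  rw [g5, g9] at htot
  linarith

end Pool.Agent.CP69
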