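import Pool.Agent.CP69.DetG

/-!
# CP69/Cnt: groups, and the number of the indices
-/

set_option autoImplicit false

open Finset

namespace Pool.Agent.CP69

open Pool.Agent.CP25

variable {A : Set ℕ}

/-- The `j`-th group of `k` elements of `S` (in increasing order). -/
def grp (k j : ℕ) (S : Finset ℕ) : Finset ℕ :=
  S.filter (fun x => j * k ≤ (S.filter (fun y => y < x)).card ∧
    (S.filter (fun y => y < x)).card < (j + 1) * k)

theorem grp_subset (k j : ℕ) (S : Finset ℕ) : grp k j S ⊆ S := filter_subset _ _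

theorem grp_disj {k i j : ℕ} {S : Finset ℕ} {x : ℕ} (hi : x ∈ grp k i S) (hj : x ∈ grp k j S) :
    i = j := by
  unfold grp at hi hj
  rw [mem_filter] at hi hj
  obtain ⟨-, h1, h2⟩ := hi
  obtain ⟨-, h3, h4⟩ := hj
  rcases lt_trichotomy i j with h | h | h
  · have h5 : (i + 1) * k ≤ j * k := Nat.mul_le_mul_right _ h
    omega
  · exact h
  · have h5 : (j + 1) * k ≤ i * k := Nat.mul_le_mul_right _ h
    omega

theorem card_grp {k j : ℕ} {S : Finset ℕ} (h : (j + 1) * k ≤ S.card) : k ≤ (grp k j S).card := by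
  have e : (j + 1) * k = j * k + k := by ring
  have hr : ∀ i : Fin k, j * k + i < S.card := by
    intro i
    have := i.2
    omega
  have hcard : ∀ i : Fin S.card, (S.filter (fun y => y < S.orderEmbOfFin rfl i)).card = i := by
    intro i
    have h1 : S.filter (fun y => y < S.orderEmbOfFin rfl i) =
        (univ.filter (fun l : Fin S.card => l < i)).image (fun l => S.orderEmbOfFin rfl l) := by
      ext y
      simp only [mem_filter, mem_image, mem_univ, true_and]
      constructor
      · rintro ⟨h2, h3⟩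
        have h4 : y ∈ Set.range (S.orderEmbOfFin rfl) := by
          rw [range_orderEmbOfFin]
          exact h2
        obtain ⟨l, rfl⟩ := h4
        exact ⟨l, (S.orderEmbOfFin rfl).lt_iff_lt.1 h3, rfl⟩
      · rintro ⟨l, h2, rfl⟩
        exact ⟨orderEmbOfFin_mem _ _ _, (S.orderEmbOfFin rfl).lt_iff_lt.2 h2⟩
    have h5 : univ.filter (fun l : Fin S.card => l < i) = Iio i := by
      ext l
      rw [mem_filter, mem_Iio]
      exact ⟨fun h => h.2, fun h => ⟨mem_univ _, h⟩⟩
    rw [h1, card_image_of_injective _ (S.orderEmbOfFin rfl).injective, h5, Fin.card_Iio]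
  have hsub : (univ : Finset (Fin k)).image
      (fun i : Fin k => S.orderEmbOfFin rfl ⟨j * k + i, hr i⟩) ⊆ grp k j S := by
    intro x hx
    rw [mem_image] at hx
    obtain ⟨i, -, rfl⟩ := hx
    unfold grp
    rw [mem_filter, hcard]
    refine ⟨orderEmbOfFin_mem _ _ _, ?_, ?_⟩
    · simp
    · have h3 := i.2
      show j * k + (i : ℕ) < (j + 1) * k
      rw [e]
      omega
  calc k = (univ : Finset (Fin k)).card := by simp
    _ = ((univ : Finset (Fin k)).image
      (fun i : Fin k => S.orderEmbOfFin rfl ⟨j * k + i, hr i⟩)).card := by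
        rw [card_image_of_injective]
        intro i i' hii
        have h2 := (S.orderEmbOfFin rfl).injective hii
        rw [Fin.mk.injEq] at h2
        exact Fin.ext (by omega)
    _ ≤ _ := card_le_card hsub

/-- The condition of Q1 on `k`. -/
def Ok1 (A : Set ℕ) (n k : ℕ) : Prop :=
  0 < k ∧ k < n ∧ k + el A (n - k) ∈ A ∧
    ∃ q ∈ A, (q : ℤ) = el A (k + el A (n - k)) - ((k + el A (n - k) : ℕ) : ℤ) + 1

/-- The condition of Q2 on `k`. -/
def Ok2 (A : Set ℕ) (n k : ℕ) : Prop :=
  0 < k ∧ k < n ∧ k + el A (n - k) ∈ A ∧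
    el A (k + el A (n - k)) + (k + el A (n - k)) + 1 ∈ A

open Classical in
/-- The number `a(n)` for the set `A` in the place of the primes. -/
noncomputable def num1 (A : Set ℕ) (n : ℕ) : ℕ := ((range n).filter (fun k => Ok1 A n k)).card

open Classical in
/-- The same number for the question with `el A p + p + 1`. -/
noncomputable def num2 (A : Set ℕ) (n : ℕ) : ℕ := ((range n).filter (fun k => Ok2 A n k)).card

theorem conc1g {n w v q : ℕ} (hv : 2 * n < v)
    (hq : q ∈ Q1g n w v (cV A (Icc v (v + w))) (trS A (n ^ 2) (Icc v (v + w)))) :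
    ∃ k, 0 < k ∧ k < n ∧ k + el A (n - k) ∈ A ∧
      (q : ℤ) = el A (k + el A (n - k)) - ((k + el A (n - k) : ℕ) : ℤ) + 1 := by
  unfold Q1g at hq
  rw [mem_filter, mem_Icc] at hq
  obtain ⟨-, a, ha, p, hp, b, hb, h1, h2, h3, h4, h5⟩ := hq
  rw [mem_trS] at ha hp hb
  rw [cn_tr_lo (fun m hm => by rw [mem_Icc] at hm; omega) (by omega)] at h3
  rw [cn_tr_hi (fun m hm => by rw [mem_Icc] at hm; omega) (by omega)] at h4
  have h6 := cn_le (A := A) a
  have h7 : n - (n - (cn A a + 1)) = cn A a + 1 := by omega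
  have h8 : el A (n - (n - (cn A a + 1))) = a := el_cn ha.2.2 h7.symm
  have h9 : n - (cn A a + 1) + el A (n - (n - (cn A a + 1))) = p := by
    rw [h8]
    omega
  refine ⟨n - (cn A a + 1), by omega, by omega, ?_, ?_⟩
  · rw [h9]
    exact hp.2.2
  · rw [h9, el_cn hb.2.2 h4]
    omega

theorem conc2g {n w v q : ℕ} (hv : 2 * n < v)
    (hq : q ∈ Q2g n w v (trS A (n ^ 2) (Icc v (v + w)))) :
    ∃ k, 0 < k ∧ k < n ∧ k + el A (n - k) ∈ A ∧
      q = el A (k + el A (n - k)) + (k + el A (n - k)) + 1 := by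
  unfold Q2g at hq
  rw [mem_filter, mem_Icc] at hq
  obtain ⟨-, a, ha, p, hp, b, hb, h1, h2, h3, h4, h5⟩ := hq
  rw [mem_trS] at ha hp hb
  rw [cn_tr_lo (fun m hm => by rw [mem_Icc] at hm; omega) (by omega)] at h3
  rw [cn_tr_lo (fun m hm => by rw [mem_Icc] at hm; omega) (by omega)] at h4
  have h6 := cn_le (A := A) a
  have h7 : n - (n - (cn A a + 1)) = cn A a + 1 := by omega
  have h8 : el A (n - (n - (cn A a + 1))) = a := el_cn ha.2.2 h7.symm
  have h9 : n - (cn A a + 1) + el A (n - (n - (cn A a + 1))) = p := by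
    rw [h8]
    omega
  refine ⟨n - (cn A a + 1), by omega, by omega, ?_, ?_⟩
  · rw [h9]
    exact hp.2.2
  · rw [h9, el_cn hb.2.2 h4]
    exact h5

theorem cnt1 {n M k : ℕ} {S : Finset ℕ}
    (hS : ∀ q ∈ S, ∃ l, 0 < l ∧ l < n ∧ l + el A (n - l) ∈ A ∧
      (q : ℤ) = el A (l + el A (n - l)) - ((l + el A (n - l) : ℕ) : ℤ) + 1)
    (h : ∀ j < M, ∃ q ∈ grp k j S, q ∈ A) : M ≤ num1 A n := by
  classical
  choose! q hq hqA using h
  have hex : ∀ j < M, ∃ l, 0 < l ∧ l < n ∧ l + el A (n - l) ∈ A ∧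
      (q j : ℤ) = el A (l + el A (n - l)) - ((l + el A (n - l) : ℕ) : ℤ) + 1 :=
    fun j hj => hS _ (grp_subset _ _ _ (hq j hj))
  choose! l h1 h2 h3 h4 using hex
  have hsub : (range M).image l ⊆ (range n).filter (fun k => Ok1 A n k) := by
    intro x hx
    rw [mem_image] at hx
    obtain ⟨j, hj, rfl⟩ := hx
    rw [mem_range] at hj
    rw [mem_filter, mem_range]
    exact ⟨h2 j hj, h1 j hj, h2 j hj, h3 j hj, q j, hqA j hj, h4 j hj⟩
  have hinj : Set.InjOn l (range M : Set ℕ) := by
    intro i hi j hj hij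
    rw [mem_coe, mem_range] at hi hj
    have h5 : (q i : ℤ) = q j := by
      rw [h4 i hi, h4 j hj, hij]
    have h6 : q i = q j := by exact_mod_cast h5
    exact grp_disj (hq i hi) (by rw [h6]; exact hq j hj)
  calc M = ((range M).image l).card := by rw [card_image_of_injOn hinj, card_range]
    _ ≤ _ := card_le_card hsub

theorem cnt2 {n M k : ℕ} {S : Finset ℕ}
    (hS : ∀ q ∈ S, ∃ l, 0 < l ∧ l < n ∧ l + el A (n - l) ∈ A ∧
      q = el A (l + el A (n - l)) + (l + el A (n - l)) + 1)
    (h : ∀ j < M, ∃ q ∈ grp k j S, q ∈ A) : M ≤ num2 A n := by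
  classical
  choose! q hq hqA using h
  have hex : ∀ j < M, ∃ l, 0 < l ∧ l < n ∧ l + el A (n - l) ∈ A ∧
      q j = el A (l + el A (n - l)) + (l + el A (n - l)) + 1 :=
    fun j hj => hS _ (grp_subset _ _ _ (hq j hj))
  choose! l h1 h2 h3 h4 using hex
  have hsub : (range M).image l ⊆ (range n).filter (fun k => Ok2 A n k) := by
    intro x hx
    rw [mem_image] at hx
    obtain ⟨j, hj, rfl⟩ := hx
    rw [mem_range] at hj
    rw [mem_filter, mem_range]
    refine ⟨h2 j hj, h1 j hj, h2 j hj, h3 j hj, ?_⟩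
    rw [← h4 j hj]
    exact hqA j hj
  have hinj : Set.InjOn l (range M : Set ℕ) := by
    intro i hi j hj hij
    rw [mem_coe, mem_range] at hi hj
    have h6 : q i = q j := by
      rw [h4 i hi, h4 j hj, hij]
    exact grp_disj (hq i hi) (by rw [h6]; exact hq j hj)
  calc M = ((range M).image l).card := by rw [card_image_of_injOn hinj, card_range]
    _ ≤ _ := card_le_card hsub

end Pool.Agent.CP69
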