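import Pool.Agent.CP25.DetQ

/-!
# CP69/DetG: the deterministic part with `K` blocks

The arguments of CP25/DetG, CP25/DetQ with `K` blocks in the place of `k^2` blocks and the window length `k^4 K` in the place of `k^6`
(`100 k^4 K ≤ n`).
-/

set_option autoImplicit false

open Finset

namespace Pool.Agent.CP69

open Pool.Agent.CP25

variable {A : Set ℕ}

open Classical in
/-- The positions `q = b - p + 1` in the window `[v, v + w]`. -/
noncomputable def Q1g (n w v c : ℕ) (G : Finset ℕ) : Finset ℕ :=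
  (Icc v (v + w)).filter (fun q => ∃ a ∈ G, ∃ p ∈ G, ∃ b ∈ G, a + 1 < n ∧ v + w < b ∧
    p + cn (G : Set ℕ) a + 1 = n + a ∧ cn (G : Set ℕ) b + c + 1 = p ∧ q + p = b + 1)

open Classical in
/-- The positions `q = b + p + 1` in the window `[v, v + w]`. -/
noncomputable def Q2g (n w v : ℕ) (G : Finset ℕ) : Finset ℕ :=
  (Icc v (v + w)).filter (fun q => ∃ a ∈ G, ∃ p ∈ G, ∃ b ∈ G, a + 1 < n ∧ b < v ∧
    p + cn (G : Set ℕ) a + 1 = n + a ∧ cn (G : Set ℕ) b + 1 = p ∧ q = b + p + 1)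

theorem szs {n k K : ℕ} (hk : 5 ≤ k) (hK : 1 ≤ K) (hn : 100 * (k ^ 4 * K) ≤ n) :
    5 * (k ^ 2 * K) ≤ k ^ 3 * K ∧ 5 * (k ^ 3 * K) ≤ k ^ 4 * K ∧ 125 * k ≤ k ^ 4 * K ∧
      100 * (n * k) ≤ n ^ 2 ∧ 5 * n ≤ n * k ∧ k ^ 2 ≤ k ^ 2 * K := by
  have h1 : 5 * (k ^ 2 * K) ≤ k ^ 3 * K := by
    have e : k ^ 3 * K = k * (k ^ 2 * K) := by ring
    rw [e]
    exact Nat.mul_le_mul_right _ hk
  have h2 : 5 * (k ^ 3 * K) ≤ k ^ 4 * K := by
    have e : k ^ 4 * K = k * (k ^ 3 * K) := by ring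
    rw [e]
    exact Nat.mul_le_mul_right _ hk
  have h5 : 5 ^ 3 ≤ k ^ 3 := Nat.pow_le_pow_left hk 3
  have h3 : 125 * k ≤ k ^ 4 * K := by
    calc 125 * k ≤ k ^ 3 * k := Nat.mul_le_mul_right _ (by omega)
      _ = k ^ 4 * 1 := by ring
      _ ≤ k ^ 4 * K := Nat.mul_le_mul_left _ hK
  have h8 : 100 * k ≤ n := by omega
  have h9 : 100 * (n * k) ≤ n ^ 2 := by
    have h10 := Nat.mul_le_mul_left n h8
    have e : n ^ 2 = n * n := by ring
    have e2 : n * (100 * k) = 100 * (n * k) := by ring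
    rw [e, ← e2]
    exact h10
  have h11 : 5 * n ≤ n * k := by
    have h12 := Nat.mul_le_mul_left n hk
    have e : n * 5 = 5 * n := by ring
    omega
  exact ⟨h1, h2, h3, h9, h11, Nat.le_mul_of_pos_right _ hK⟩

/-- The elements `a t`, the numbers `p t` and the elements `b t = P (p t)` of the blocks. -/
structure GrK (A : Set ℕ) (n k K : ℕ) (a p b : ℕ → ℕ) : Prop where
  ha : ∀ t < K, a t ∈ A
  hp : ∀ t < K, p t ∈ A
  hb : ∀ t < K, b t ∈ A
  ahi : ∀ t < K, a t < 8 + 4 * (k ^ 2 * K)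
  rel : ∀ t < K, p t + cn A (a t) + 1 = n + a t
  plo : ∀ t < K, n ≤ p t + 1
  phi : ∀ t < K, p t ≤ n + 8 + 4 * (k ^ 2 * K)
  p0 : ∀ t < K, p 0 ≤ p t
  pw : ∀ t < K, p t ≤ p 0 + 4 * (k ^ 2 * K)
  bel : ∀ t < K, cn A (b t) + 1 = p t
  blo : ∀ t < K, 4 * n ≤ b t
  bhi : ∀ t < K, b t < 8 + p t * k
  bmono : ∀ s < K, ∀ t < s, b t + p s + 1 ≤ b s + p t
  pmono : ∀ s < K, ∀ t < s, p t + k ≤ p s
  b0 : ∀ t < K, b 0 + p t ≤ b t + p 0
  bw : ∀ t < K, b t ≤ b 0 + 4 * (k ^ 3 * K) + k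

theorem exists_grK {n k K : ℕ} (hk : 5 ≤ k) (hK : 1 ≤ K) (hn : 100 * (k ^ 4 * K) ≤ n)
    (hW : Win A k (n ^ 2)) (hU : cn A (4 * n) + 2 ≤ n)
    (hG : ∀ t < K, ∃ a ∈ A, ∃ p ∈ A, 8 + 4 * k ^ 2 * t ≤ a ∧
      a < 8 + 4 * k ^ 2 * t + 2 * k ^ 2 ∧ p + cn A a + 1 = n + a) :
    ∃ a p b : ℕ → ℕ, GrK A n k K a p b := by
  obtain ⟨s1, s2, s3, s5, s6, s7⟩ := szs hk hK hn
  choose! a ha p hp h1 h2 h3 using hG
  have ablk : ∀ t < K, 4 * k ^ 2 * t + 4 * k ^ 2 ≤ 4 * (k ^ 2 * K) := by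
    intro t ht
    have h4 : k ^ 2 * (t + 1) ≤ k ^ 2 * K := Nat.mul_le_mul_left _ ht
    have e2 : k ^ 2 * (t + 1) = k ^ 2 * t + k ^ 2 := by ring
    have e3 : 4 * k ^ 2 * t = 4 * (k ^ 2 * t) := by ring
    omega
  have hkk : k ^ 2 = k * k := by ring
  have hk1 : k * 5 ≤ k * k := Nat.mul_le_mul_left k hk
  have ahi : ∀ t < K, a t < 8 + 4 * (k ^ 2 * K) := by
    intro t ht
    have h4 := ablk t ht
    have h5 := h2 t ht
    omega
  have plo : ∀ t < K, n ≤ p t + 1 := by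
    intro t ht
    have h4 := cn_le (A := A) (a t)
    have h5 := h3 t ht
    omega
  have phi : ∀ t < K, p t ≤ n + 8 + 4 * (k ^ 2 * K) := by
    intro t ht
    have h4 := ahi t ht
    have h5 := h3 t ht
    omega
  have alo : ∀ t < K, 8 ≤ a t := by
    intro t ht
    have h4 := h1 t ht
    omega
  have amono : ∀ s < K, ∀ t < s, a t + 2 * k ^ 2 ≤ a s := by
    intro s hs t ht
    have h4 := h1 s hs
    have h5 := h2 t (ht.trans hs)
    have h6 : k ^ 2 * (t + 1) ≤ k ^ 2 * s := Nat.mul_le_mul_left _ ht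
    have e2 : k ^ 2 * (t + 1) = k ^ 2 * t + k ^ 2 := by ring
    have e3 : 4 * k ^ 2 * t = 4 * (k ^ 2 * t) := by ring
    have e4 : 4 * k ^ 2 * s = 4 * (k ^ 2 * s) := by ring
    omega
  have pmono : ∀ s < K, ∀ t < s, p t + k ≤ p s := by
    intro s hs t ht
    have h4 := amono s hs t ht
    have h5 := hW.ne' (x := a t) (y := a s) (j := k) (alo t (ht.trans hs)) (by
      rw [← hkk]
      omega) (by have := ahi s hs; omega)
    have h6 := h3 t (ht.trans hs)
    have h7 := h3 s hs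
    omega
  have p0 : ∀ t < K, p 0 ≤ p t := by
    intro t ht
    rcases Nat.eq_zero_or_pos t with h | h
    · rw [h]
    · have := pmono t ht 0 h
      omega
  have a0 : ∀ t < K, a 0 ≤ a t := by
    intro t ht
    rcases Nat.eq_zero_or_pos t with h | h
    · rw [h]
    · have := amono t ht 0 h
      omega
  have pw : ∀ t < K, p t ≤ p 0 + 4 * (k ^ 2 * K) := by
    intro t ht
    have h4 := cn_mono (A := A) (a0 t ht)
    have h5 := h3 t ht
    have h6 := h3 0 hK
    have h7 := ahi t ht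
    have h8 := alo 0 hK
    have h9 := cn_le (A := A) (a 0)
    omega
  have p2n : ∀ t < K, p t ≤ 2 * n := by
    intro t ht
    have := phi t ht
    omega
  have pk : ∀ t < K, p t * k ≤ 2 * (n * k) := by
    intro t ht
    have h4 := Nat.mul_le_mul_right k (p2n t ht)
    have e : 2 * n * k = 2 * (n * k) := by ring
    omega
  have hex : ∀ t < K, ∃ b, b ∈ A ∧ b < 8 + p t * k ∧ cn A b + 1 = p t := by
    intro t ht
    have h4 := pk t ht
    have h5 := hW.el (x := 8) le_rfl (p t) (by omega)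
    have h6 := plo t ht
    exact exists_el (by omega) (by omega)
  choose! b hb hb1 hb2 using hex
  have blo : ∀ t < K, 4 * n ≤ b t := by
    intro t ht
    by_contra hcon
    have h4 := cn_lt (x := b t) (y := 4 * n) (hb t ht) le_rfl (by omega)
    have h5 := hb2 t ht
    have h6 := plo t ht
    omega
  have bge : ∀ s < K, ∀ t < K, p t ≤ p s → b t ≤ b s := by
    intro s hs t ht h
    by_contra hcon
    have h4 := cn_lt (x := b s) (y := b t) (hb s hs) le_rfl (by omega)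
    have h5 := hb2 t ht
    have h6 := hb2 s hs
    omega
  have bge2 : ∀ s < K, ∀ t < K, p t ≤ p s → b t + p s ≤ b s + p t := by
    intro s hs t ht h
    have h4 := cn_le_add (A := A) (bge s hs t ht h)
    have h5 := hb2 t ht
    have h6 := hb2 s hs
    omega
  have bmono : ∀ s < K, ∀ t < s, b t + p s + 1 ≤ b s + p t := by
    intro s hs t ht
    have hts := ht.trans hs
    have h4 := pmono s hs t ht
    have h5 := bge2 s hs t hts (by omega)
    have h6 := hb2 t hts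
    have h7 := hb2 s hs
    have h8 := pk s hs
    have h9 := hb1 s hs
    have h10 := hW.ne' (x := b t) (y := b s) (j := 1) (by have := blo t hts; omega) (by omega)
      (by omega)
    omega
  have bw : ∀ t < K, b t ≤ b 0 + 4 * (k ^ 3 * K) + k := by
    intro t ht
    by_contra hcon
    have e : (4 * (k ^ 2 * K) + 1) * k = 4 * (k ^ 3 * K) + k := by ring
    have h8 := pk t ht
    have h9 := hb1 t ht
    have h4 := hW.el (x := b 0) (by have := blo 0 hK; omega) (4 * (k ^ 2 * K) + 1) (by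
      rw [e]
      omega)
    rw [e] at h4
    have h5 := cn_mono (A := A) (x := b 0 + (4 * (k ^ 3 * K) + k)) (y := b t) (by omega)
    have h6 := hb2 t ht
    have h7 := hb2 0 hK
    have h10 := pw t ht
    omega
  exact ⟨a, p, b, ha, hp, hb, ahi, h3, plo, phi, p0, pw, hb2, blo, hb1, bmono, pmono,
    fun t ht => bge2 t ht 0 hK (p0 t ht), bw⟩

theorem det1g {n k K : ℕ} {a p b : ℕ → ℕ} (hk : 5 ≤ k) (hK : 1 ≤ K)
    (hn : 100 * (k ^ 4 * K) ≤ n) (h : GrK A n k K a p b) :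
    ∃ v, 2 * n < v ∧ v + k ^ 4 * K ≤ n ^ 2 ∧
      K ≤ (Q1g n (k ^ 4 * K) v (cV A (Icc v (v + k ^ 4 * K)))
        (trS A (n ^ 2) (Icc v (v + k ^ 4 * K)))).card := by
  obtain ⟨s1, s2, s3, s5, s6, s7⟩ := szs hk hK hn
  obtain ⟨v, hv⟩ : ∃ v, v + p 0 = b 0 + 1 := by
    have h1 := h.blo 0 hK
    have h2 := h.phi 0 hK
    exact ⟨b 0 + 1 - p 0, by omega⟩
  have pk : ∀ t < K, p t * k ≤ 2 * (n * k) := by
    intro t ht
    have h4 : p t ≤ 2 * n := by have := h.phi t ht; omega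
    have h5 := Nat.mul_le_mul_right k h4
    have e : 2 * n * k = 2 * (n * k) := by ring
    omega
  have hb0 := h.blo 0 hK
  have hb0' := h.bhi 0 hK
  have hp0 := h.plo 0 hK
  have hp0' := h.phi 0 hK
  have hpk0 := pk 0 hK
  refine ⟨v, by omega, by omega, ?_⟩
  refine card_img (q := fun t => b t + 1 - p t) ?_ _ ?_
  · intro s hs t ht
    have h1 := h.bmono s hs t ht
    have h2 := h.blo t (ht.trans hs)
    have h3 := h.phi t (ht.trans hs)
    omega
  · intro t ht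
    have h1 := h.b0 t ht
    have h2 := h.bw t ht
    have h3 := h.p0 t ht
    have h4 := h.phi t ht
    have h5 := h.blo t ht
    have h6 := h.ahi t ht
    have h7 := h.bhi t ht
    have h8 := pk t ht
    have h9 := h.bel t ht
    unfold Q1g
    rw [mem_filter, mem_Icc]
    refine ⟨⟨by omega, by omega⟩, a t, ?_, p t, ?_, b t, ?_, by omega, by omega, ?_, ?_, by omega⟩
    · rw [mem_trS, mem_Icc]
      exact ⟨by omega, by omega, h.ha t ht⟩
    · rw [mem_trS, mem_Icc]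
      exact ⟨by omega, by omega, h.hp t ht⟩
    · rw [mem_trS, mem_Icc]
      exact ⟨by omega, by omega, h.hb t ht⟩
    · rw [cn_tr_lo (fun m hm => by rw [mem_Icc] at hm; omega) (by omega)]
      exact h.rel t ht
    · rw [cn_tr_hi (fun m hm => by rw [mem_Icc] at hm; omega) (by omega)]
      exact h9

theorem det2g {n k K : ℕ} {a p b : ℕ → ℕ} (hk : 5 ≤ k) (hK : 1 ≤ K)
    (hn : 100 * (k ^ 4 * K) ≤ n) (h : GrK A n k K a p b) :
    ∃ v, 2 * n < v ∧ v ≤ n ^ 2 ∧
      K ≤ (Q2g n (k ^ 4 * K) v (trS A (n ^ 2) (Icc v (v + k ^ 4 * K)))).card := by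
  obtain ⟨s1, s2, s3, s5, s6, s7⟩ := szs hk hK hn
  have pk : ∀ t < K, p t * k ≤ 2 * (n * k) := by
    intro t ht
    have h4 : p t ≤ 2 * n := by have := h.phi t ht; omega
    have h5 := Nat.mul_le_mul_right k h4
    have e : 2 * n * k = 2 * (n * k) := by ring
    omega
  have hb0 := h.blo 0 hK
  have hb0' := h.bhi 0 hK
  have hp0 := h.plo 0 hK
  have hp0' := h.phi 0 hK
  have hpk0 := pk 0 hK
  refine ⟨b 0 + p 0 + 1, by omega, by omega, ?_⟩
  refine card_img (q := fun t => b t + p t + 1) ?_ _ ?_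
  · intro s hs t ht
    have h1 := h.bmono s hs t ht
    have h2 := h.pmono s hs t ht
    omega
  · intro t ht
    have h1 := h.b0 t ht
    have h2 := h.bw t ht
    have h3 := h.p0 t ht
    have h4 := h.phi t ht
    have h5 := h.blo t ht
    have h6 := h.ahi t ht
    have h7 := h.bhi t ht
    have h8 := pk t ht
    have h9 := h.bel t ht
    have h10 := h.pw t ht
    unfold Q2g
    rw [mem_filter, mem_Icc]
    refine ⟨⟨by omega, by omega⟩, a t, ?_, p t, ?_, b t, ?_, by omega, by omega, ?_, ?_, rfl⟩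
    · rw [mem_trS, mem_Icc]
      exact ⟨by omega, by omega, h.ha t ht⟩
    · rw [mem_trS, mem_Icc]
      exact ⟨by omega, by omega, h.hp t ht⟩
    · rw [mem_trS, mem_Icc]
      exact ⟨by omega, by omega, h.hb t ht⟩
    · rw [cn_tr_lo (fun m hm => by rw [mem_Icc] at hm; omega) (by omega)]
      exact h.rel t ht
    · rw [cn_tr_lo (fun m hm => by rw [mem_Icc] at hm; omega) (by omega)]
      exact h9

end Pool.Agent.CP69
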