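import Pool.Agent.CP69.Bound
import Pool.Agent.CP25.Main

/-!
# CP69/Main: the number of the indices is at least `n / (log n)^11`
-/

set_option autoImplicit false

namespace Pool.Agent.CP69

open MeasureTheory ProbabilityTheory Finset Filter Topology Pool.Agent.CP25

variable {Ω : Type*} [mΩ : MeasurableSpace Ω] {μ : Measure Ω} {E : ℕ → Set Ω}

/-- `k = [21 log^2 n]` -/
noncomputable def ks (n : ℕ) : ℕ := ⌊21 * Real.log n ^ 2⌋₊

/-- the number of the blocks -/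
noncomputable def Ks (n : ℕ) : ℕ := n / (100 * ks n ^ 4)

theorem hlog : Tendsto (fun n : ℕ => Real.log n) atTop atTop :=
  Real.tendsto_log_atTop.comp tendsto_natCast_atTop_atTop

theorem ks_le (n : ℕ) : (ks n : ℝ) ≤ 21 * Real.log n ^ 2 := Nat.floor_le (by positivity)

theorem le_ks (n : ℕ) : 21 * Real.log n ^ 2 ≤ ks n + 1 := (Nat.lt_floor_add_one _).le

theorem log_pow_le (C : ℝ) (hC : 0 < C) (m : ℕ) : ∀ᶠ n : ℕ in atTop, C * Real.log n ^ m ≤ n := by
  have h1 : (fun x : ℝ => Real.log x ^ (m : ℝ)) =o[atTop] fun x : ℝ => x ^ (1 : ℝ) :=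
    isLittleO_log_rpow_rpow_atTop m (by norm_num)
  have h2 := h1.bound (show (0 : ℝ) < 1 / C by positivity)
  have h3 := tendsto_natCast_atTop_atTop.eventually h2
  filter_upwards [h3] with n h5
  have h7 : 0 ≤ Real.log n := Real.log_natCast_nonneg n
  rw [Real.norm_of_nonneg (by positivity), Real.norm_of_nonneg (by positivity),
    Real.rpow_natCast, Real.rpow_one] at h5
  calc C * Real.log n ^ m ≤ C * (1 / C * n) := mul_le_mul_of_nonneg_left h5 hC.le
    _ = n := by field_simp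

theorem smallK : ∀ᶠ n : ℕ in atTop, Real.exp (-(n / 4)) +
    7 * (n : ℝ) ^ 4 * (1 - 1 / (3 * Real.log n)) ^ ks n ≤ 39 * (1 / (n : ℝ) ^ 2) := by
  filter_upwards [hlog.eventually_ge_atTop 15, eventually_ge_atTop 3] with n h2 h3
  have hn : (0 : ℝ) < n := by
    have : (3 : ℝ) ≤ n := by exact_mod_cast h3
    linarith
  have hk' := le_ks n
  obtain ⟨L, hL⟩ : ∃ L, L = Real.log n := ⟨_, rfl⟩
  rw [← hL] at h2 hk' ⊢
  have hk : 18 * L ^ 2 ≤ (ks n : ℝ) := by nlinarith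
  have e1 : Real.exp (-(n / 4)) ≤ 32 * (1 / (n : ℝ) ^ 2) := by
    have h4 := Real.quadratic_le_exp_of_nonneg (show (0 : ℝ) ≤ n / 4 by positivity)
    have h5 : (n : ℝ) ^ 2 / 32 ≤ Real.exp (n / 4) := by nlinarith
    rw [Real.exp_neg]
    calc (Real.exp (n / 4))⁻¹ ≤ ((n : ℝ) ^ 2 / 32)⁻¹ := inv_anti₀ (by positivity) h5
      _ = 32 * (1 / (n : ℝ) ^ 2) := by
          field_simp
  have e2 : (1 - 1 / (3 * L)) ^ ks n ≤ 1 / (n : ℝ) ^ 6 := by
    have h4 : 1 - 1 / (3 * L) ≤ Real.exp (-(1 / (3 * L))) := by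
      have := Real.add_one_le_exp (-(1 / (3 * L)))
      linarith
    have h5 : 0 ≤ 1 - 1 / (3 * L) := by
      have h6 : 1 / (3 * L) ≤ 1 / 1 := one_div_le_one_div_of_le (by norm_num) (by linarith)
      linarith
    calc (1 - 1 / (3 * L)) ^ ks n ≤ Real.exp (-(1 / (3 * L))) ^ ks n := pow_le_pow_left₀ h5 h4 _
      _ = Real.exp (ks n * (-(1 / (3 * L)))) := by rw [Real.exp_nat_mul]
      _ ≤ Real.exp (-(6 * L)) := by
          rw [Real.exp_le_exp]
          have h7 : 18 * L ^ 2 * (1 / (3 * L)) ≤ ks n * (1 / (3 * L)) :=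
            mul_le_mul_of_nonneg_right hk (by positivity)
          have h8 : 18 * L ^ 2 * (1 / (3 * L)) = 6 * L := by
            field_simp
            norm_num
          rw [h8] at h7
          linarith
      _ = 1 / (n : ℝ) ^ 6 := by
          rw [Real.exp_neg, one_div]
          congr 1
          rw [show (6 : ℝ) * L = ((6 : ℕ) : ℝ) * L by norm_num, Real.exp_nat_mul, hL,
            Real.exp_log hn]
  have e3 : 7 * (n : ℝ) ^ 4 * (1 - 1 / (3 * L)) ^ ks n ≤ 7 * (1 / (n : ℝ) ^ 2) := by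
    calc 7 * (n : ℝ) ^ 4 * (1 - 1 / (3 * L)) ^ ks n ≤ 7 * (n : ℝ) ^ 4 * (1 / (n : ℝ) ^ 6) :=
          mul_le_mul_of_nonneg_left e2 (by positivity)
      _ = 7 * (1 / (n : ℝ) ^ 2) := by
          field_simp
  linarith

theorem ks_five : ∀ᶠ n : ℕ in atTop, 5 ≤ ks n := by
  filter_upwards [hlog.eventually_ge_atTop 1] with n h2
  have h1 := le_ks n
  have h3 : (4 : ℝ) < ks n := by nlinarith
  have h4 : 4 < ks n := by exact_mod_cast h3
  exact h4

theorem Ks_one : ∀ᶠ n : ℕ in atTop, 1 ≤ Ks n := by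
  filter_upwards [log_pow_le (100 * 21 ^ 4) (by norm_num) 8, ks_five] with n h1 h2
  unfold Ks
  rw [Nat.one_le_div_iff (by positivity)]
  have h3 : ((100 * ks n ^ 4 : ℕ) : ℝ) ≤ n := by
    push_cast
    calc (100 : ℝ) * (ks n : ℝ) ^ 4 ≤ 100 * (21 * Real.log n ^ 2) ^ 4 :=
          mul_le_mul_of_nonneg_left (pow_le_pow_left₀ (Nat.cast_nonneg _) (ks_le n) 4) (by norm_num)
      _ = 100 * 21 ^ 4 * Real.log n ^ 8 := by ring
      _ ≤ n := h1
  exact_mod_cast h3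

theorem Ks_mul (n : ℕ) : 100 * (ks n ^ 4 * Ks n) ≤ n := by
  have h := Nat.mul_div_le n (100 * ks n ^ 4)
  unfold Ks
  rw [← mul_assoc]
  exact h

/-- the number of the groups -/
theorem groups : ∀ᶠ n : ℕ in atTop, (n : ℝ) / Real.log n ^ 11 ≤ ((Ks n / ks n : ℕ) : ℝ) := by
  obtain ⟨C, hC⟩ : ∃ C : ℝ, C = 100 * 21 ^ 5 := ⟨_, rfl⟩
  have hC0 : 0 < C := by rw [hC]; norm_num
  filter_upwards [log_pow_le (2 * C) (by positivity) 10, ks_five,
    hlog.eventually_ge_atTop (2 * C), hlog.eventually_ge_atTop 1, eventually_ge_atTop 1]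
    with n h1 h2 h3 h4 h5
  have hn : (0 : ℝ) < n := by exact_mod_cast h5
  have hk := ks_le n
  obtain ⟨L, hL⟩ : ∃ L, L = Real.log n := ⟨_, rfl⟩
  rw [← hL] at h1 h3 h4 hk ⊢
  obtain ⟨M, hM⟩ : ∃ M, M = Ks n / ks n := ⟨_, rfl⟩
  rw [← hM]
  have a1 : Ks n < ks n * (M + 1) := by
    rw [hM]
    exact Nat.lt_mul_div_succ _ (by omega)
  have a2 : n < 100 * ks n ^ 4 * (Ks n + 1) := Nat.lt_mul_div_succ _ (by positivity)
  have a3 : n < 100 * ks n ^ 4 * (ks n * (M + 1)) :=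
    a2.trans_le (Nat.mul_le_mul_left _ a1)
  have a4 : (n : ℝ) < 100 * (ks n : ℝ) ^ 4 * (ks n * (M + 1)) := by exact_mod_cast a3
  have a5 : (100 : ℝ) * (ks n : ℝ) ^ 4 * (ks n * (M + 1)) ≤ C * L ^ 10 * (M + 1) := by
    calc (100 : ℝ) * (ks n : ℝ) ^ 4 * (ks n * (M + 1)) = 100 * (ks n : ℝ) ^ 5 * (M + 1) := by ring
      _ ≤ 100 * (21 * L ^ 2) ^ 5 * (M + 1) := by
          refine mul_le_mul_of_nonneg_right ?_ (by positivity)
          exact mul_le_mul_of_nonneg_left (pow_le_pow_left₀ (Nat.cast_nonneg _) hk 5) (by norm_num)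
      _ = C * L ^ 10 * (M + 1) := by rw [hC]; ring
  by_contra hcon
  rw [not_le] at hcon
  have hL0 : 0 < L := by linarith
  have b1 : C * L ^ 10 * (n / L ^ 11) ≤ n / 2 := by
    have e : C * L ^ 10 * (n / L ^ 11) = C * n / L := by
      field_simp
    rw [e, div_le_div_iff₀ hL0 (by norm_num)]
    nlinarith
  have b2 : C * L ^ 10 * ((M : ℝ) + 1) ≤ C * L ^ 10 * (n / L ^ 11 + 1) := by
    refine mul_le_mul_of_nonneg_left ?_ (by positivity)
    linarith
  nlinarith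

theorem mainK [IsProbabilityMeasure μ] (hE : ∀ m, MeasurableSet (E m)) (hi : iIndepSet E μ)
    (hp : ∀ m, 3 ≤ m → μ.real (E m) = 1 / Real.log m) :
    ∀ᵐ ω ∂μ, ∀ᶠ n : ℕ in atTop, (n : ℝ) / Real.log n ^ 11 ≤ num1 (RS E ω) n ∧
      (n : ℝ) / Real.log n ^ 11 ≤ num2 (RS E ω) n := by
  have hbad : ∀ᶠ n in atTop, μ.real (BadK E n (ks n) (Ks n)) ≤ 39 * (1 / (n : ℝ) ^ 2) := by
    filter_upwards [ks_five, Ks_one, smallK, N1] with n h1 h2 h3 h4
    refine (badK_le hE hi hp h1 h2 (Ks_mul n) ?_).trans h3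
    exact h4 _ (fun m => measureReal_le_one) fun m hm => (hp m hm).le
  have hs : Summable (fun n : ℕ => 39 * (1 / (n : ℝ) ^ 2)) :=
    (Real.summable_one_div_nat_pow.2 (by norm_num)).mul_left 39
  filter_upwards [bc hs hbad] with ω hω
  filter_upwards [hω, ks_five, Ks_one, groups] with n h1 h2 h3 h4
  obtain ⟨h5, h6⟩ := good_of_notMemK h2 h3 (Ks_mul n) h1
  exact ⟨h4.trans (by exact_mod_cast h5), h4.trans (by exact_mod_cast h6)⟩

end Pool.Agent.CP69
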