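import Pool.Agent.CP69.Cnt
import Pool.Agent.CP25.Prob

/-!
# CP69/Prob: the bad events with `K` blocks and `K / k` groups
-/

set_option autoImplicit false

namespace Pool.Agent.CP69

open MeasureTheory ProbabilityTheory Finset Filter Topology Pool.Agent.CP25
open Pool.Agent.CM69 (tr mem_tr real_biInter key)

variable {Ω : Type*} [mΩ : MeasurableSpace Ω] {μ : Measure Ω} {E : ℕ → Set Ω}

def G1 (E : ℕ → Set Ω) (n k w v c j : ℕ) : Set Ω :=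
  {ω | k ≤ (grp k j (Q1g n w v c (tr E (n ^ 2) (Icc v (v + w)) ω))).card ∧
    ∀ q ∈ grp k j (Q1g n w v c (tr E (n ^ 2) (Icc v (v + w)) ω)), ω ∉ E q}

def G2 (E : ℕ → Set Ω) (n k w v j : ℕ) : Set Ω :=
  {ω | k ≤ (grp k j (Q2g n w v (tr E (n ^ 2) (Icc v (v + w)) ω))).card ∧
    ∀ q ∈ grp k j (Q2g n w v (tr E (n ^ 2) (Icc v (v + w)) ω)), ω ∉ E q}

omit mΩ in
/-- Outside of the bad events there are many indices. -/
theorem goodg {n k K : ℕ} (hk : 5 ≤ k) (hK : 1 ≤ K) (hn : 100 * (k ^ 4 * K) ≤ n) {ω : Ω}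
    (h1 : ∀ y < n ^ 2, 8 ≤ y → ω ∉ W1 E k y) (h2 : ∀ y < n ^ 2, 8 ≤ y → ω ∉ W2 E k y)
    (h3 : ω ∉ UU E n) (h4 : ∀ t < K, ω ∉ BG E n k t)
    (h5 : ∀ v < n ^ 2 + 1, 2 * n < v → ∀ c < k ^ 4 * K + 2, ∀ j < K / k,
      ω ∉ G1 E n k (k ^ 4 * K) v c j)
    (h6 : ∀ v < n ^ 2 + 1, 2 * n < v → ∀ j < K / k, ω ∉ G2 E n k (k ^ 4 * K) v j) :
    K / k ≤ num1 (RS E ω) n ∧ K / k ≤ num2 (RS E ω) n := by
  classical
  obtain ⟨s1, s2, s3, s5, s6, s7⟩ := szs hk hK hn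
  have hW : Win (RS E ω) k (n ^ 2) := by
    intro y hy hyk
    have g1 := h1 y (by omega) hy
    have g2 := h2 y (by omega) hy
    simp only [W1, Set.mem_ofPred_eq, not_forall, not_not, mem_Ico] at g1
    simp only [W2, Set.mem_ofPred_eq, not_forall, mem_Ico] at g2
    obtain ⟨m, ⟨ha, hb⟩, hc⟩ := g1
    obtain ⟨m', ⟨ha', hb'⟩, hc'⟩ := g2
    exact ⟨⟨m, hc, ha, hb⟩, ⟨m', hc', ha', hb'⟩⟩
  have hU : cn (RS E ω) (4 * n) + 2 ≤ n := by
    simp only [UU, Set.mem_ofPred_eq, not_lt] at h3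
    exact h3
  have hkk : k ^ 2 = k * k := by ring
  have hk1 : k * 5 ≤ k * k := Nat.mul_le_mul_left k hk
  have hgrp : ∀ j < K / k, (j + 1) * k ≤ K := fun j hj =>
    (Nat.mul_le_mul_right k hj).trans (Nat.div_mul_le_self K k)
  have hG : ∀ t < K, ∃ a ∈ RS E ω, ∃ p ∈ RS E ω, 8 + 4 * k ^ 2 * t ≤ a ∧
      a < 8 + 4 * k ^ 2 * t + 2 * k ^ 2 ∧ p + cn (RS E ω) a + 1 = n + a := by
    intro t ht
    have e4 : 4 * k ^ 2 * t + 4 * k ^ 2 ≤ 4 * (k ^ 2 * K) := by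
      have h4 : k ^ 2 * (t + 1) ≤ k ^ 2 * K := Nat.mul_le_mul_left _ ht
      have e2 : k ^ 2 * (t + 1) = k ^ 2 * t + k ^ 2 := by ring
      have e3 : 4 * k ^ 2 * t = 4 * (k ^ 2 * t) := by ring
      omega
    have g := h4 t ht
    simp only [BG, Set.mem_ofPred_eq, not_and] at g
    have hcard : k ≤ (Qg n k t (tr E (n ^ 2) (Icc (n - 1) (2 * n)) ω)).card := by
      refine many_p hW (by omega) (by omega) (n := n) (z := 8 + 4 * k ^ 2 * t) (by omega)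
        (by omega) _ ?_
      rintro p ⟨a, ha, ha1, ha2, ha3⟩
      have hle := cn_le (A := RS E ω) a
      unfold Qg
      rw [mem_filter, mem_Icc]
      refine ⟨⟨by omega, by omega⟩, a, ?_, ha1, ha2, ?_⟩
      · rw [mem_tr, mem_Icc]
        exact ⟨by omega, by omega, ha⟩
      · rw [tr_eq, cn_tr_lo (fun m hm => by rw [mem_Icc] at hm; omega) (by omega)]
        exact ha3
    have g2 := g hcard
    push Not at g2
    obtain ⟨p, hp, hpE⟩ := g2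
    unfold Qg at hp
    rw [mem_filter, mem_Icc] at hp
    obtain ⟨-, a, ha, ha1, ha2, ha3⟩ := hp
    rw [tr_eq, cn_tr_lo (fun m hm => by rw [mem_Icc] at hm; omega) (by omega)] at ha3
    rw [mem_tr] at ha
    exact ⟨a, ha.2.2, p, hpE, ha1, ha2, ha3⟩
  obtain ⟨a, p, b, hab⟩ := exists_grK hk hK hn hW hU hG
  constructor
  · obtain ⟨v, hv1, hv2, hv3⟩ := det1g hk hK hn hab
    have hc : cV (RS E ω) (Icc v (v + k ^ 4 * K)) < k ^ 4 * K + 2 := by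
      unfold cV
      calc _ ≤ (Icc v (v + k ^ 4 * K)).card := card_le_card (filter_subset _ _)
        _ = k ^ 4 * K + 1 := by rw [Nat.card_Icc]; omega
        _ < k ^ 4 * K + 2 := Nat.lt_succ_self _
    refine cnt1 (k := k) (S := Q1g n (k ^ 4 * K) v (cV (RS E ω) (Icc v (v + k ^ 4 * K)))
      (trS (RS E ω) (n ^ 2) (Icc v (v + k ^ 4 * K)))) (fun q hq => conc1g hv1 hq) fun j hj => ?_
    have g := h5 v (by omega) hv1 _ hc j hj
    simp only [G1, Set.mem_ofPred_eq, not_and, tr_eq] at g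
    have g2 := g (card_grp ((hgrp j hj).trans hv3))
    push Not at g2
    obtain ⟨q, hq, hqE⟩ := g2
    exact ⟨q, hq, hqE⟩
  · obtain ⟨v, hv1, hv2, hv3⟩ := det2g hk hK hn hab
    refine cnt2 (k := k) (S := Q2g n (k ^ 4 * K) v
      (trS (RS E ω) (n ^ 2) (Icc v (v + k ^ 4 * K)))) (fun q hq => conc2g hv1 hq) fun j hj => ?_
    have g := h6 v (by omega) hv1 j hj
    simp only [G2, Set.mem_ofPred_eq, not_and, tr_eq] at g
    have g2 := g (card_grp ((hgrp j hj).trans hv3))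
    push Not at g2
    obtain ⟨q, hq, hqE⟩ := g2
    exact ⟨q, hq, hqE⟩

/-- The bad event for `n`. -/
def BadK (E : ℕ → Set Ω) (n k K : ℕ) : Set Ω :=
  (⋃ y ∈ (range (n ^ 2)).filter (fun y => 8 ≤ y), W1 E k y) ∪
  ((⋃ y ∈ (range (n ^ 2)).filter (fun y => 8 ≤ y), W2 E k y) ∪
  (UU E n ∪ ((⋃ t ∈ range K, BG E n k t) ∪
  ((⋃ v ∈ (range (n ^ 2 + 1)).filter (fun v => 2 * n < v), ⋃ c ∈ range (k ^ 4 * K + 2),
    ⋃ j ∈ range (K / k), G1 E n k (k ^ 4 * K) v c j) ∪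
  (⋃ v ∈ (range (n ^ 2 + 1)).filter (fun v => 2 * n < v),
    ⋃ j ∈ range (K / k), G2 E n k (k ^ 4 * K) v j)))))

omit mΩ in
theorem good_of_notMemK {n k K : ℕ} (hk : 5 ≤ k) (hK : 1 ≤ K) (hn : 100 * (k ^ 4 * K) ≤ n) {ω : Ω}
    (h : ω ∉ BadK E n k K) : K / k ≤ num1 (RS E ω) n ∧ K / k ≤ num2 (RS E ω) n := by
  unfold BadK at h
  simp only [Set.mem_union, Set.mem_iUnion, mem_filter, mem_range, not_or, not_exists,
    and_imp] at h
  obtain ⟨h1, h2, h3, h4, h5, h6⟩ := h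
  exact goodg hk hK hn h1 h2 h3 h4 h5 h6

end Pool.Agent.CP69
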